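import Pool.Agent.H70.EN.FINI
import Pool.Agent.H28.NW.Targets

/-!
# From windows of bounded length to windows longer than every power of `log log X`
-/

set_option autoImplicit false

open Finset Pool.Agent.H6.N4D Pool.Agent.H6.TP Filter Topology

namespace Pool.Agent.H1.NW.STG

open Pool.Agent.H28.NW
open Pool.Agent.H70.EN2
open Pool.Agent.H93.EB (M phi ind)

lemma lin_le_pow {D q : ℕ} (h1 : 2 * D ≤ q) (h2 : 4 ≤ q) : D * (q + 1) ≤ 2 ^ q := by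
  have h3 := sq_le_pow q h2
  nlinarith

theorem pf_STG3 (hEN : W_EN3B) (hBAS : W_BAS)
    (hMON : W_MON) (hNEG : W_NEG)
    (hTPB : W_TOP) : W_STG := by
  intro B ε hB hε
  obtain ⟨B₁, hB₁, h2⟩ := hEN
  obtain ⟨e₂, he₂, h3⟩ := h2 (ε / 2) (by positivity)
  obtain ⟨δ, R, Q, hδ, h4⟩ := hBAS e₂ he₂
  obtain ⟨s₀, h5⟩ := h3 R
  obtain ⟨η, hη, h6⟩ := hTPB δ Q hδ
  obtain ⟨e₁, s₀', he₁, h7⟩ := h4 η hη
  obtain ⟨ε₃, k₀', X₃, hε₃, h8⟩ := h6 e₁ he₁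
  obtain ⟨cN, kN, X₄, hcN, hneg⟩ := hNEG (min ε₃ (ε / 2)) (lt_min hε₃ (by positivity))
  obtain ⟨C, hC, hmn⟩ := hMON
  obtain ⟨c, hc⟩ : ∃ c : ℝ, c = min (cN / (1 + 3 * C)) 1 := ⟨_, rfl⟩
  have hc0 : 0 < c := by rw [hc]; exact lt_min (by positivity) one_pos
  have hc1 : c * (1 + 3 * C) ≤ cN := by
    calc c * (1 + 3 * C) ≤ cN / (1 + 3 * C) * (1 + 3 * C) :=
          mul_le_mul_of_nonneg_right (by rw [hc]; exact min_le_left _ _) (by positivity)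
      _ = cN := by field_simp
  have hcle : c ≤ 1 := by rw [hc]; exact min_le_right _ _
  -- the scales at the bottom
  obtain ⟨s, hsd⟩ : ∃ s : ℕ, s = s₀ + s₀' + k₀' + kN + 1 := ⟨_, rfl⟩
  obtain ⟨k₀, hk₀⟩ : ∃ k₀ : ℕ, k₀ = B₁ * s + s := ⟨_, rfl⟩
  have hBs : s ≤ B₁ * s := Nat.le_mul_of_pos_left s (by omega)
  obtain ⟨X₅, h9⟩ := h5 s (by omega)
  refine ⟨c, ⌈(2 ^ k₀ : ℝ) / c⌉₊, hc0, fun H hH => ?_⟩
  have hNH : (2 : ℝ) ^ k₀ ≤ c * H := by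
    have h10 : (2 ^ k₀ : ℝ) / c ≤ H := (Nat.le_ceil _).trans (by exact_mod_cast hH)
    rw [div_le_iff₀ hc0] at h10
    linarith
  obtain ⟨D, hDd⟩ : ∃ D : ℕ, D = B₁ * B := ⟨_, rfl⟩
  have hD : 1 ≤ D := by rw [hDd]; exact Nat.mul_pos hB₁ hB
  obtain ⟨x₁, hx₁⟩ := eventually_atTop.1
    ((tendsto_rpow_atTop (show (0 : ℝ) < 191 / 200 by norm_num)).eventually
      (eventually_ge_atTop (k₀ : ℝ)))
  refine ⟨max X₃ (max X₄ (max X₅ (max x₁ (max 3 (max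
    ((2 : ℝ) ^ (D * (2 * D + 4) + B₁ * k₀ + 1) + k₀ / e₁ + 1 / c) (Real.log H / c)))))),
    fun X lam hX hl hcon => ?_⟩
  obtain ⟨g3, hX⟩ := max_le_iff.1 hX
  obtain ⟨g4, hX⟩ := max_le_iff.1 hX
  obtain ⟨g5, hX⟩ := max_le_iff.1 hX
  obtain ⟨g6, hX⟩ := max_le_iff.1 hX
  obtain ⟨w4, hX⟩ := max_le_iff.1 hX
  obtain ⟨w1, w2⟩ := max_le_iff.1 hX
  have w3' : (k₀ : ℝ) ≤ X.T ^ (191 / 200 : ℝ) := hx₁ X.T (g6.trans X.L_le_T)
  have hT1 : 1 ≤ X.T := by linarith [X.L_le_T]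
  set L : ℝ := X.L with hLdef
  have p1 : (0 : ℝ) < 2 ^ (D * (2 * D + 4) + B₁ * k₀ + 1) := by positivity
  have p2 : (0 : ℝ) ≤ k₀ / e₁ := by positivity
  have p3 : (0 : ℝ) < 1 / c := by positivity
  have hL0 : 0 < L := by linarith
  have h1c : 1 ≤ c * L := by
    have : 1 / c ≤ L := by linarith
    rw [div_le_iff₀ hc0] at this
    linarith
  have hk0e : (k₀ : ℝ) ≤ e₁ * L := by
    have : k₀ / e₁ ≤ L := by linarith
    rw [div_le_iff₀ he₁] at this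
    linarith
  have hk0r : (k₀ : ℝ) ≤ 2 * X.T ^ (191 / 200 : ℝ) := by
    have : (0 : ℝ) ≤ k₀ := Nat.cast_nonneg _
    linarith
  have hHpos : (0 : ℝ) < H := by
    have h11 : (0 : ℝ) < 2 ^ k₀ := by positivity
    by_contra hcon'
    push Not at hcon'
    nlinarith
  have hNH' : 2 ^ k₀ ≤ H := by
    have : ((2 ^ k₀ : ℕ) : ℝ) ≤ H := by
      push_cast
      calc (2 : ℝ) ^ k₀ ≤ c * (H : ℝ) := hNH
        _ ≤ 1 * H := mul_le_mul_of_nonneg_right hcle hHpos.le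
        _ = H := one_mul _
    exact_mod_cast this
  have hmon := hmn X (2 ^ k₀) H lam (by linarith) (fun n => lio_abs hl n) Nat.one_le_two_pow hNH'
  have hratio : ((2 ^ k₀ : ℕ) : ℝ) / H ≤ c := by
    rw [div_le_iff₀ hHpos]
    push_cast
    exact hNH
  have hlogH : Real.log H ≤ c * L := by
    rw [div_le_iff₀ hc0] at w2
    linarith
  have hlow : (2 / Real.pi - cN) * L ≤ wlg X (fun n => M lam (2 ^ k₀) n) := by
    have h51 : ((2 ^ k₀ : ℕ) : ℝ) / H * L + Real.log H + 1 ≤ 3 * c * L := by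
      have h50 := mul_le_mul_of_nonneg_right hratio hL0.le
      linarith
    have h61 : C * (((2 ^ k₀ : ℕ) : ℝ) / H * L + Real.log H + 1) ≤ C * (3 * c * L) :=
      mul_le_mul_of_nonneg_left h51 hC.le
    have h71 : (2 / Real.pi - c) * L - C * (3 * c * L) ≤ wlg X (fun n => M lam (2 ^ k₀) n) := by
      linarith
    have h81 : (2 / Real.pi - cN) * L ≤ (2 / Real.pi - c) * L - C * (3 * c * L) := by
      have : (c * (1 + 3 * C)) * L ≤ cN * L := mul_le_mul_of_nonneg_right hc1 hL0.le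
      linarith
    exact h81.trans h71
  have ht := hneg X k₀ lam g4 hl (by omega) hk0r hlow
  have hStr := h8 X k₀ lam g3 hl (by omega) hk0r (by linarith [min_le_left ε₃ (ε / 2)])
  have hBase := h7 s k₀ X lam (by omega) (by omega) hk0e hl.pm hStr
  -- the scale at the top
  obtain ⟨n, hn⟩ : ∃ n : ℕ, n = Nat.log 2 ⌊L⌋₊ := ⟨_, rfl⟩
  have q1 : (2 : ℝ) ^ (D * (2 * D + 4) + B₁ * k₀ + 1) ≤ L := by linarith
  have hfl : 2 ^ (D * (2 * D + 4) + B₁ * k₀ + 1) ≤ ⌊L⌋₊ := by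
    rw [Nat.le_floor_iff hL0.le]
    push_cast
    exact q1
  have hfl0 : ⌊L⌋₊ ≠ 0 := by
    have : 0 < 2 ^ (D * (2 * D + 4) + B₁ * k₀ + 1) := by positivity
    omega
  have hn1 : D * (2 * D + 4) + B₁ * k₀ + 1 ≤ n := by
    rw [hn]
    exact Nat.le_log_of_pow_le (by norm_num) hfl
  have hn2 : (2 : ℝ) ^ n ≤ L := by
    have h11 : 2 ^ n ≤ ⌊L⌋₊ := by
      rw [hn]
      exact Nat.pow_log_le_self 2 hfl0
    have h12 : ((2 ^ n : ℕ) : ℝ) ≤ (⌊L⌋₊ : ℝ) := by exact_mod_cast h11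
    push_cast at h12
    exact h12.trans (Nat.floor_le hL0.le)
  have hn3 : L ≤ (2 : ℝ) ^ (n + 1) := by
    have h11 : ⌊L⌋₊ < 2 ^ (n + 1) := by
      rw [hn]
      exact Nat.lt_pow_succ_log_self (by norm_num) _
    have h12 : ((⌊L⌋₊ + 1 : ℕ) : ℝ) ≤ ((2 ^ (n + 1) : ℕ) : ℝ) := by exact_mod_cast h11
    have h13 := Nat.lt_floor_add_one L
    push_cast at h12
    linarith
  have hn4 : Real.log X.T ≤ (n : ℝ) + 1 := by
    have h11 : (0 : ℝ) < (n : ℝ) + 1 := by positivity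
    have h12 : Real.log L ≤ ((n : ℝ) + 1) * Real.log 2 := by
      refine (Real.log_le_log hL0 hn3).trans ?_
      rw [Real.log_pow]
      push_cast
      exact le_refl _
    have h13 : (24 / 25 : ℝ) * Real.log X.T ≤ Real.log L := by
      rw [← Real.log_rpow (by linarith)]
      exact Real.log_le_log (Real.rpow_pos_of_pos (by linarith) _) X.T_pow_le
    have h14 : ((n : ℝ) + 1) * Real.log 2 ≤ ((n : ℝ) + 1) * 0.7 :=
      mul_le_mul_of_nonneg_left (by linarith [Real.log_two_lt_d9]) h11.le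
    linarith
  obtain ⟨k, hk⟩ : ∃ k : ℕ, k = n / B₁ := ⟨_, rfl⟩
  have hBk : B₁ * k ≤ n := by
    rw [hk]
    exact Nat.mul_div_le _ _
  have hkk : k₀ ≤ k := by
    rw [hk, Nat.le_div_iff_mul_le (by omega), mul_comm]
    omega
  have hkn : k ≤ n := by
    have : k ≤ B₁ * k := Nat.le_mul_of_pos_left k (by omega)
    omega
  have htop : (2 : ℝ) ^ (B₁ * k) ≤ L :=
    (pow_le_pow_right₀ (by norm_num) hBk).trans hn2
  have hen := h9 X lam g5 hl hBase k₀ k (by omega) hkk htop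
  refine ⟨k, ?_, (pow_le_pow_right₀ (by norm_num) hkn).trans hn2, by
    linarith [min_le_right ε₃ (ε / 2)]⟩
  obtain ⟨q, hq⟩ : ∃ q : ℕ, q = n / D := ⟨_, rfl⟩
  have hkB : k / B = q := by rw [hk, Nat.div_div_eq_div_mul, hq, hDd]
  rw [hkB]
  have hq1 : 2 * D + 4 ≤ q := by
    rw [hq, Nat.le_div_iff_mul_le (by omega), mul_comm]
    omega
  have hq2 : n < D * (q + 1) := by
    rw [hq]
    exact Nat.lt_mul_div_succ n (by omega)
  have hq3 := lin_le_pow (D := D) (q := q) (by omega) (by omega)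
  have hq4 : ((n + 1 : ℕ) : ℝ) ≤ ((2 ^ q : ℕ) : ℝ) := by exact_mod_cast (by omega : n + 1 ≤ 2 ^ q)
  push_cast at hq4
  linarith

theorem en3_of (h : W_EN3) : W_EN3B := by
  obtain ⟨B, hB, h⟩ := h
  refine ⟨B + 4, by omega, fun ε hε => ?_⟩
  obtain ⟨e, he, h⟩ := h ε hε
  refine ⟨e, he, fun R => ?_⟩
  obtain ⟨s₀, h⟩ := h R
  refine ⟨s₀, fun s hs => ?_⟩
  obtain ⟨X₀, h⟩ := h s hs
  refine ⟨X₀, fun X lam hX hl hb k₀ k h1 h2 h3 => h X lam hX hl hb k₀ k ?_ h2 ?_⟩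
  · have : B * s ≤ (B + 4) * s := Nat.mul_le_mul_right _ (by omega)
    exact this.trans h1
  · refine le_trans ?_ h3
    have h4 : (16 : ℝ) ^ k = 2 ^ (4 * k) := by
      rw [pow_mul]
      norm_num
    rw [h4]
    exact pow_le_pow_right₀ (by norm_num) (Nat.mul_le_mul_right _ (by omega))

end Pool.Agent.H1.NW.STG
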